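import Pool.Agent.R988.BM.Amen

/-!
# Banach-Mazur rotation problem: amenable normal subgroups

Let `E` be a separable infinite-dimensional Banach space isomorphic to a Hilbert space, `G` a group
of linear isometries of `E` acting transitively on the unit sphere. If `E` is not isometric to a
Hilbert space, then all groups `N` of bounded operators normalised by `G` which preserve an
equivalent inner product, in particular all bounded `N` which are amenable in the strong operator
topology, consist of elements of one algebra `D` isomorphic to the real numbers, the complex numbers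
or the quaternions, all of whose elements are multiples of isometries.

Proof outline (files `Pool/Agent/R988/BM/*`).

1. `Amen`: a bounded amenable group preserves an equivalent inner product (Day, Dixmier). Let `H` be
   `E` with that inner product, `C` the commutant of `N` and `B` the commutant of `C` (von Neumann
   algebras, invariant under the conjugations by `T ∈ G`).
2. `Up.center_triv`: the centre contains no projection except `0` and `1`, since a projection which
   commutes with all its conjugates and kills a vector is `0` (starting file `H590R3/AbCore`).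
3. `Cyc`: hence some vector is cyclic for `B` or for `C` (exhaustion with orthogonal cyclic
   subspaces and comparison in the factor). By transitivity all nonzero vectors are.
4. `VN`: so `C` or `B` has no zero divisors, and its self-adjoint elements are scalars (square
   roots). In the first case `T* T ∈ C` is a scalar for all `T ∈ G`, and the norm of `E` is a multiple
   of the norm of `H`. In the second case `B` is a quadratic division algebra (Frobenius), it is
   finite-dimensional and invariant, hence contained in `D` (starting files `TH596/RO`).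
-/

set_option autoImplicit false

namespace Pool.Agent.Results.MP_cc72b1_an.AmenableNormal

open Quaternion Pool.R988.BM

theorem result :
    ∀ (E : Type) [NormedAddCommGroup E] [NormedSpace ℝ E] [CompleteSpace E]
      [TopologicalSpace.SeparableSpace E] (H : Type) [NormedAddCommGroup H]
      [InnerProductSpace ℝ H], Nonempty (E ≃L[ℝ] H) → ¬ FiniteDimensional ℝ E →
      ∀ G : Subgroup (E ≃ₗᵢ[ℝ] E), (∀ x y : E, ‖x‖ = 1 → ‖y‖ = 1 → ∃ T ∈ G, T x = y) →
      (∃ (K : Type) (instK : NormedAddCommGroup K) (instI : InnerProductSpace ℝ K)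
        (instC : CompleteSpace K), Nonempty (E ≃ₗᵢ[ℝ] K)) ∨
      ∃ D : Subalgebra ℝ (E →L[ℝ] E),
        (Nonempty (D ≃ₐ[ℝ] ℝ) ∨ Nonempty (D ≃ₐ[ℝ] ℂ) ∨ Nonempty (D ≃ₐ[ℝ] ℍ[ℝ])) ∧
        (∀ a ∈ D, ∀ x, ‖a x‖ = ‖a‖ * ‖x‖) ∧
        (∀ T ∈ G, ∀ a ∈ D, ∃ b ∈ D, ∀ x, b x = T (a (T.symm x))) ∧
        ∀ N : Subgroup (E ≃L[ℝ] E),
          (∀ T ∈ G, ∀ S ∈ N, T.toContinuousLinearEquiv * S * T.toContinuousLinearEquiv⁻¹ ∈ N) →
          ((∃ (K : Type) (instK : NormedAddCommGroup K) (instI : InnerProductSpace ℝ K)
              (Φ : E ≃L[ℝ] K), ∀ S ∈ N, ∀ x, ‖Φ (S x)‖ = ‖Φ x‖) ∨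
            ((∃ c : ℝ, ∀ S ∈ N, ∀ x, ‖S x‖ ≤ c * ‖x‖) ∧ AmenableN N)) →
          ∀ S ∈ N, (S : E →L[ℝ] E) ∈ D := by
  intro E _ _ _ _ H _ _ hΦ hE G htr
  obtain ⟨Φ0⟩ := hΦ
  haveI : Nontrivial E := Pool.Agent.TH596.RO.nontriv hE
  by_cases hK : ∃ (K : Type) (instK : NormedAddCommGroup K) (instI : InnerProductSpace ℝ K)
        (instC : CompleteSpace K), Nonempty (E ≃ₗᵢ[ℝ] K)
  · exact Or.inl hK
  right
  have hat : Pool.Agent.TH596.RO.AT G := by
    intro x y hx hy ε hε
    obtain ⟨T, hT, hTx⟩ := htr x y hx hy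
    exact ⟨T, hT, by rw [hTx, sub_self, norm_zero]; exact hε⟩
  have hcore := Pool.Agent.TH596.RO.core_DD hE hat
  refine ⟨Pool.Agent.TH596.RO.DD G, hcore.1, hcore.2, fun T hT a ha =>
    ⟨_, Pool.Agent.TH596.RO.DD_inv hT ha, fun x => rfl⟩, ?_⟩
  intro N hN hyp S hS
  have hex : ∃ (K : Type) (_ : NormedAddCommGroup K) (_ : InnerProductSpace ℝ K)
      (Φ : E ≃L[ℝ] K), ∀ S ∈ N, ∀ x, ‖Φ (S x)‖ = ‖Φ x‖ := by
    rcases hyp with h | ⟨⟨c, hc⟩, hA⟩
    · exact h
    · exact amen_unit Φ0 hc hA
  obtain ⟨K, i1, i2, Φ, hiso⟩ := hex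
  rcases dichotomy Φ htr hN hiso with h | h
  · exact absurd ⟨E, inferInstance, InnerProductSpace.ofNorm ℝ h, inferInstance,
      ⟨LinearIsometryEquiv.refl ℝ E⟩⟩ hK
  · exact h S hS

end Pool.Agent.Results.MP_cc72b1_an.AmenableNormal
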