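import Pool.Agent.R988.BM.Norm

/-!
# Banach-Mazur rotation problem: self-adjoint sets of operators normalised by a transitive group

Let `E` be a separable infinite-dimensional Banach space and `G` a group of linear isometries of `E`
acting transitively on the unit sphere. There is an algebra `D` of operators, isomorphic to the real
numbers, the complex numbers or the quaternions, whose elements are multiples of isometries, with the
following property, for every inner product on `E` which defines the topology: a set `A` of bounded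
operators which is invariant under conjugation by `G` and under the adjoint is contained in `D`, or
its commutant is contained in `D` and `A` has no invariant closed subspaces except `0` and `E`.

Proof outline (files `Pool/Agent/R988/BM/*`). The commutant and the bicommutant of `A` are invariant.
The centre contains no projections except `0` and `1` (`center_triv`, starting file
`H590R3/AbCore`), so by comparison in factors there is a cyclic vector for the commutant or for the
bicommutant; by transitivity all nonzero vectors are cyclic. Hence the bicommutant or the commutant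
has no zero divisors (`gen_dich`). It is then an invariant quadratic division algebra, hence
finite-dimensional (Frobenius) and contained in `D`.
-/

set_option autoImplicit false

namespace Pool.Agent.Results.MP_cc72b1_an.InvariantOperators

open Quaternion Pool.R988.BM
open scoped InnerProductSpace

theorem result :
    ∀ (E : Type) [NormedAddCommGroup E] [NormedSpace ℝ E] [CompleteSpace E]
      [TopologicalSpace.SeparableSpace E], ¬ FiniteDimensional ℝ E →
      ∀ G : Subgroup (E ≃ₗᵢ[ℝ] E), (∀ x y : E, ‖x‖ = 1 → ‖y‖ = 1 → ∃ T ∈ G, T x = y) →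
      ∃ D : Subalgebra ℝ (E →L[ℝ] E),
        (Nonempty (D ≃ₐ[ℝ] ℝ) ∨ Nonempty (D ≃ₐ[ℝ] ℂ) ∨ Nonempty (D ≃ₐ[ℝ] ℍ[ℝ])) ∧
        (∀ a ∈ D, ∀ x, ‖a x‖ = ‖a‖ * ‖x‖) ∧
        (∀ T ∈ G, ∀ a ∈ D, ∃ b ∈ D, ∀ x, b x = T (a (T.symm x))) ∧
        ∀ (K : Type) [NormedAddCommGroup K] [InnerProductSpace ℝ K]
          (Φ : E ≃L[ℝ] K) (A : Set (E →L[ℝ] E)),
          (∀ T ∈ G, ∀ a ∈ A, ∃ b ∈ A, ∀ x, b x = T (a (T.symm x))) →
          (∀ a ∈ A, ∃ b ∈ A, ∀ x y, ⟪Φ (a x), Φ y⟫_ℝ = ⟪Φ x, Φ (b y)⟫_ℝ) →
          A ⊆ D ∨
          ((∀ c : E →L[ℝ] E, (∀ a ∈ A, ∀ x, c (a x) = a (c x)) → c ∈ D) ∧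
            ∀ W : Submodule ℝ E, IsClosed (W : Set E) → (∀ a ∈ A, ∀ x ∈ W, a x ∈ W) →
              W = ⊥ ∨ W = ⊤) := by
  intro E _ _ _ _ hE G htr
  haveI : Nontrivial E := Pool.Agent.TH596.RO.nontriv hE
  have hat : Pool.Agent.TH596.RO.AT G := by
    intro x y hx hy ε hε
    obtain ⟨T, hT, hTx⟩ := htr x y hx hy
    exact ⟨T, hT, by rw [hTx, sub_self, norm_zero]; exact hε⟩
  have hcore := Pool.Agent.TH596.RO.core_DD hE hat
  refine ⟨Pool.Agent.TH596.RO.DD G, hcore.1, hcore.2, fun T hT a ha =>
    ⟨_, Pool.Agent.TH596.RO.DD_inv hT ha, fun x => rfl⟩, ?_⟩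
  intro K _ _ Φ A cA sA
  haveI : CompleteSpace K :=
    (completeSpace_congr (e := Φ.toEquiv) Φ.isUniformEmbedding).1 inferInstance
  haveI : Nontrivial K := Φ.symm.toEquiv.nontrivial
  refine sa_case Φ htr hcore.2 (fun T hT a ha => ?_) sA
  obtain ⟨b, hb, hbx⟩ := cA T hT a ha
  have : Pool.Agent.TH596.RO.cj T a = b := by
    ext x
    exact (hbx x).symm
  rw [this]
  exact hb

end Pool.Agent.Results.MP_cc72b1_an.InvariantOperators
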