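import Pool.Agent.H821.Rot.Main
import Pool.Agent.H821.Rot.Sep

/-!
# Banach-Mazur rotation problem: norm-separable groups and compact perturbations of the identity

Let `E` be a separable real Banach space.

1. If a group of surjective linear isometries which is separable for the operator norm acts
   transitively on the unit sphere, then `E` is isomorphic to a Hilbert space. If moreover `E` is
   infinite-dimensional and the group is amenable modulo compact operators, then `E` is a Hilbert
   space.
2. If `E` is infinite-dimensional and the isometries `T` with `T - 1` compact act transitively on the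
   unit sphere, then `E` is a Hilbert space (and conversely). For isometries `T` with `T - 1` of
   finite rank this is a theorem of Cabello Sánchez.

Proof outline (files `Pool/Agent/H821/Rot/*`).

* `NormOpen.lean`, `Exact.lean`: by Baire category and successive approximations unit vectors which
  are close are interchanged by isometries which are close to the identity in the operator norm. The
  starting file `UniformMicroTransitive` then gives that `E` is isomorphic to a Hilbert space, and
  the starting file `HilbertianHessian` gives an equivariant field of Hessians `A x`.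
* `Main.lean`: take unit vectors `x i` which tend weakly to zero along an ultrafilter. The quadratic
  form `q v = lim A (x i) v v` is invariant under `T` if `T - 1` is compact, since
  `‖T⁻¹ (x i) - x i‖ → 0` and the field is uniformly norm continuous. Average over the group.
* `Kadec.lean`, `Dual.lean`, `Sep.lean`: if `T - 1` is compact, then `‖f + η i‖` and
  `‖f ∘ T + η i‖` have the same limit for weak* null `η i`. As the norm is smooth and norm attaining
  functionals are dense (Bishop-Phelps), the limit is the same for all unit functionals `f`. A Baire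
  category argument in the dual ball shows that weak* convergence on the dual sphere implies norm
  convergence. So the dual space is separable, and so is the group for the operator norm.
-/

set_option autoImplicit false
set_option linter.unusedVariables false

namespace Pool.Agent.Results.MP_cc72b1_an.NormSeparableGroups

open Pool.Agent.H821.Rot TopologicalSpace

/-- in a Hilbert space any two unit vectors are interchanged by a reflection -/
lemma hilbert_compact {H : Type} [NormedAddCommGroup H] [InnerProductSpace ℝ H] (x y : H)
    (h : ‖x‖ = ‖y‖) :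
    ∃ T : H ≃ₗᵢ[ℝ] H, IsCompactOperator (fun z : H => T z - z) ∧ T x = y := by
  refine ⟨((ℝ ∙ (x - y))ᗮ : Submodule ℝ H).reflection, ?_, Submodule.reflection_sub h⟩
  have h1 : IsCompactOperator ((ℝ ∙ (x - y)).orthogonalProjectionOnto : H →L[ℝ] (ℝ ∙ (x - y))) :=
    isCompactOperator_of_locallyCompactSpace_dom _
  have h2 := h1.clm_comp (((-2 : ℝ) • (ℝ ∙ (x - y)).subtypeL) : (ℝ ∙ (x - y)) →L[ℝ] H)
  have h3 : (fun z : H => ((ℝ ∙ (x - y))ᗮ : Submodule ℝ H).reflection z - z) =
      (((-2 : ℝ) • (ℝ ∙ (x - y)).subtypeL : (ℝ ∙ (x - y)) →L[ℝ] H)) ∘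
        ((ℝ ∙ (x - y)).orthogonalProjectionOnto : H →L[ℝ] (ℝ ∙ (x - y))) := by
    funext z
    rw [Submodule.reflection_orthogonal_apply, Submodule.reflection_apply]
    show -((2 : ℕ) • (ℝ ∙ (x - y)).starProjection z - z) - z =
      (-2 : ℝ) • (ℝ ∙ (x - y)).starProjection z
    rw [two_smul, neg_smul, two_smul]
    abel
  rw [h3]
  exact h2

theorem result :
    ∀ (E : Type) [NormedAddCommGroup E] [NormedSpace ℝ E] [CompleteSpace E] [SeparableSpace E],
      -- groups of isometries which are separable for the operator norm
      (∀ G : Subgroup (E ≃ₗᵢ[ℝ] E), IsSeparable (ops (G : Set (E ≃ₗᵢ[ℝ] E))) →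
        (∀ x y : E, ‖x‖ = 1 → ‖y‖ = 1 → ∃ T ∈ G, T x = y) →
        (∃ (H : Type) (instH : NormedAddCommGroup H) (instI : InnerProductSpace ℝ H)
          (instC : CompleteSpace H), Nonempty (E ≃L[ℝ] H)) ∧
        (¬ FiniteDimensional ℝ E → AmenableModCompact G →
          ∃ (H : Type) (instH : NormedAddCommGroup H) (instI : InnerProductSpace ℝ H)
            (instC : CompleteSpace H), Nonempty (E ≃ₗᵢ[ℝ] H))) ∧
      -- compact perturbations of the identity
      (¬ FiniteDimensional ℝ E →
        ((∀ x y : E, ‖x‖ = 1 → ‖y‖ = 1 → ∃ T : E ≃ₗᵢ[ℝ] E,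
          IsCompactOperator (fun z : E => T z - z) ∧ T x = y) ↔
        ∃ (H : Type) (instH : NormedAddCommGroup H) (instI : InnerProductSpace ℝ H)
          (instC : CompleteSpace H), Nonempty (E ≃ₗᵢ[ℝ] H))) := by
  intro E _ _ _ _
  refine ⟨fun G hsep htr => ⟨hilbertian G hsep htr, fun hE ham =>
    hilbert_of_amenable hE G hsep htr ham⟩, fun hE => ⟨fun h => ?_, ?_⟩⟩
  · have := dual_separable h
    refine hilbert_of_amenable hE (compactGroup E) compactGroup_separable (fun x y hx hy => ?_)
      (amenable_of_compact _ fun T hT => hT)
    obtain ⟨T, hT, hxy⟩ := h x y hx hy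
    exact ⟨T, hT, hxy⟩
  · rintro ⟨H, i1, i2, i3, ⟨Φ⟩⟩ x y hx hy
    obtain ⟨T, hT, hxy⟩ := hilbert_compact (Φ x) (Φ y) (by
      rw [Φ.norm_map, Φ.norm_map, hx, hy])
    refine ⟨(Φ.trans T).trans Φ.symm, ?_, ?_⟩
    · have h1 : IsCompactOperator (fun z : E => T (Φ z) - Φ z) :=
        hT.comp_clm (Φ.toContinuousLinearEquiv : E →L[ℝ] H)
      have h2 : IsCompactOperator (fun z : E =>
          (Φ.symm.toContinuousLinearEquiv : H →L[ℝ] E) (T (Φ z) - Φ z)) := h1.clm_comp _
      have h3 : (fun z : E => ((Φ.trans T).trans Φ.symm) z - z) = fun z : E =>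
          (Φ.symm.toContinuousLinearEquiv : H →L[ℝ] E) (T (Φ z) - Φ z) := by
        funext z
        rw [map_sub]
        show Φ.symm (T (Φ z)) - z = Φ.symm (T (Φ z)) - Φ.symm (Φ z)
        rw [Φ.symm_apply_apply]
      rw [h3]
      exact h2
    · show Φ.symm (T (Φ x)) = y
      rw [hxy, Φ.symm_apply_apply]

end Pool.Agent.Results.MP_cc72b1_an.NormSeparableGroups
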