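import Pool.Agent.R988.BM.Split

/-!
# Banach-Mazur rotation problem: one orthogonal splitting which stays orthogonal

Let `E` be a separable infinite-dimensional Banach space and `G` a group of linear isometries of `E`
acting transitively on the unit sphere.

1. `E` is isometric to a Hilbert space if and only if there are an inner product defining the
   topology of `E` and a closed subspace `W`, different from `0` and `E`, such that for all `T ∈ G`
   the subspaces `T W` and `T W^⊥` are orthogonal.
2. More generally, if `E` is not isometric to a Hilbert space then for each inner product defining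
   the topology of `E`, every bounded operator which has the same adjoint for all the inner products
   `⟨T x, T y⟩`, `T ∈ G`, lies in an algebra `D` isomorphic to the real numbers, the complex numbers
   or the quaternions, whose elements are multiples of isometries.

Proof outline (files `Pool/Agent/R988/BM/*`). An operator `c` as in 2 commutes with all `T* T`. The
set `C` of all operators which commute with all `T* T` is closed under adjoints, and it is invariant
under conjugation by `U ∈ G`: since `c` commutes with `U* U` one has `U c U⁻¹ = (U*)⁻¹ c U*`, and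
since `c` commutes with `(T U)* (T U) = U* (T* T) U` one gets that `U c U⁻¹` commutes with `T* T`
(`PP_CI`). By `center_triv` and comparison in factors, `C` or its commutant has no zero divisors
(`gen_dich`). In the first case `C` is an invariant quadratic division algebra and contained in `D`.
In the second case the operators `T* T`, which lie in the commutant of `C`, are scalars, and the norm
of `E` is a multiple of the Hilbert norm. For 1 take the orthogonal projection onto `W`.
-/

set_option autoImplicit false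

namespace Pool.Agent.Results.MP_cc72b1_an.OrthogonalSplitting

open Quaternion Pool.R988.BM
open scoped InnerProductSpace

theorem result :
    ∀ (E : Type) [NormedAddCommGroup E] [NormedSpace ℝ E] [CompleteSpace E]
      [TopologicalSpace.SeparableSpace E], ¬ FiniteDimensional ℝ E →
      ∀ G : Subgroup (E ≃ₗᵢ[ℝ] E), (∀ x y : E, ‖x‖ = 1 → ‖y‖ = 1 → ∃ T ∈ G, T x = y) →
      ((∃ (K : Type) (instK : NormedAddCommGroup K) (instI : InnerProductSpace ℝ K)
          (instC : CompleteSpace K), Nonempty (E ≃ₗᵢ[ℝ] K)) ↔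
        ∃ (K : Type) (instK : NormedAddCommGroup K) (instI : InnerProductSpace ℝ K)
          (Φ : E ≃L[ℝ] K) (W : Submodule ℝ E), IsClosed (W : Set E) ∧ W ≠ ⊥ ∧ W ≠ ⊤ ∧
            ∀ T ∈ G, ∀ w ∈ W, ∀ v, (∀ w' ∈ W, ⟪Φ w', Φ v⟫_ℝ = 0) → ⟪Φ (T w), Φ (T v)⟫_ℝ = 0) ∧
      ∃ D : Subalgebra ℝ (E →L[ℝ] E),
        (Nonempty (D ≃ₐ[ℝ] ℝ) ∨ Nonempty (D ≃ₐ[ℝ] ℂ) ∨ Nonempty (D ≃ₐ[ℝ] ℍ[ℝ])) ∧
        (∀ a ∈ D, ∀ x, ‖a x‖ = ‖a‖ * ‖x‖) ∧
        (∀ T ∈ G, ∀ a ∈ D, ∃ b ∈ D, ∀ x, b x = T (a (T.symm x))) ∧
        ((∃ (K : Type) (instK : NormedAddCommGroup K) (instI : InnerProductSpace ℝ K)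
            (instC : CompleteSpace K), Nonempty (E ≃ₗᵢ[ℝ] K)) ∨
          ∀ (K : Type) [NormedAddCommGroup K] [InnerProductSpace ℝ K] (Φ : E ≃L[ℝ] K)
            (c d : E →L[ℝ] E),
            (∀ T ∈ G, ∀ x y, ⟪Φ (T (c x)), Φ (T y)⟫_ℝ = ⟪Φ (T x), Φ (T (d y))⟫_ℝ) → c ∈ D) := by
  intro E _ _ _ _ hE G htr
  haveI : Nontrivial E := Pool.Agent.TH596.RO.nontriv hE
  have hat : Pool.Agent.TH596.RO.AT G := by
    intro x y hx hy ε hε
    obtain ⟨T, hT, hTx⟩ := htr x y hx hy
    exact ⟨T, hT, by rw [hTx, sub_self, norm_zero]; exact hε⟩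
  have hcore := Pool.Agent.TH596.RO.core_DD hE hat
  have hpar : (∀ x y : E, ‖x + y‖ * ‖x + y‖ + ‖x - y‖ * ‖x - y‖ = 2 * (‖x‖ * ‖x‖ + ‖y‖ * ‖y‖)) →
      ∃ (K : Type) (instK : NormedAddCommGroup K) (instI : InnerProductSpace ℝ K)
          (instC : CompleteSpace K), Nonempty (E ≃ₗᵢ[ℝ] K) := fun h =>
    ⟨E, inferInstance, InnerProductSpace.ofNorm ℝ h, inferInstance, ⟨LinearIsometryEquiv.refl ℝ E⟩⟩
  refine ⟨⟨?_, ?_⟩, Pool.Agent.TH596.RO.DD G, hcore.1, hcore.2, fun T hT a ha =>
    ⟨_, Pool.Agent.TH596.RO.DD_inv hT ha, fun x => rfl⟩, ?_⟩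
  · rintro ⟨K, i1, i2, i3, ⟨e⟩⟩
    obtain ⟨x, hx⟩ := exists_ne (0 : E)
    refine ⟨K, i1, i2, e.toContinuousLinearEquiv, Submodule.span ℝ {x},
      Submodule.closed_of_finiteDimensional _, ?_, ?_, ?_⟩
    · intro h
      exact hx (Submodule.span_singleton_eq_bot.1 h)
    · intro h
      apply hE
      haveI : FiniteDimensional ℝ (⊤ : Submodule ℝ E) := by rw [← h]; infer_instance
      exact Submodule.topEquiv.finiteDimensional
    · intro T hT w hw v hv
      have h1 := hv w hw
      have h2 : ⟪e (T w), e (T v)⟫_ℝ = ⟪e w, e v⟫_ℝ := by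
        have h3 := (e.symm.trans (T.trans e)).inner_map_map (e w) (e v)
        have e1 : ∀ y, (e.symm.trans (T.trans e)) (e y) = e (T y) := by
          intro y
          show e (T (e.symm (e y))) = e (T y)
          rw [e.symm_apply_apply]
        rw [e1, e1] at h3
        exact h3
      show ⟪e (T w), e (T v)⟫_ℝ = 0
      rw [h2]
      exact h1
  · rintro ⟨K, i1, i2, Φ, W, hWc, hW0, hW1, hWT⟩
    haveI : CompleteSpace K :=
      (completeSpace_congr (e := Φ.toEquiv) Φ.isUniformEmbedding).1 inferInstance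
    haveI : Nontrivial K := Φ.symm.toEquiv.nontrivial
    rcases split_case Φ htr hcore.2 hWc hWT with h | h | h
    · exact hpar h
    · exact absurd h hW0
    · exact absurd h hW1
  · by_cases hK : ∃ (K : Type) (instK : NormedAddCommGroup K) (instI : InnerProductSpace ℝ K)
        (instC : CompleteSpace K), Nonempty (E ≃ₗᵢ[ℝ] K)
    · exact Or.inl hK
    right
    intro K _ _ Φ c d hcd
    haveI : CompleteSpace K :=
      (completeSpace_congr (e := Φ.toEquiv) Φ.isUniformEmbedding).1 inferInstance
    haveI : Nontrivial K := Φ.symm.toEquiv.nontrivial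
    rcases adj_case Φ htr hcd with h | h
    · exact absurd (hpar h) hK
    · exact h

end Pool.Agent.Results.MP_cc72b1_an.OrthogonalSplitting
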